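import Pool.Agent.H64.CB.Targets

/-!
# Row PRT: products with projective spaces
-/

set_option autoImplicit false

open Matrix Pool.Agent.H64.CB

namespace Pool.Agent.H37.CB

section tensor

variable {K : Type} [Field K] {W : Type} {m n m' n' q q' : ℕ}

/-- the product of two vectors -/
def tens (e : Fin m × Fin n ≃ Fin q) (x : Fin m → K) (y : Fin n → K) : Fin q → K :=
  fun b => x (e.symm b).1 * y (e.symm b).2

theorem kron_mulVec (e : Fin m × Fin n ≃ Fin q) (e' : Fin m' × Fin n' ≃ Fin q')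
    (F : Matrix (Fin m') (Fin m) K) (G : Matrix (Fin n') (Fin n) K) (x : Fin m → K)
    (y : Fin n → K) :
    (Matrix.of fun b a => F (e'.symm b).1 (e.symm a).1 * G (e'.symm b).2 (e.symm a).2) *ᵥ
      tens e x y = tens e' (F *ᵥ x) (G *ᵥ y) := by
  funext b
  show ∑ a, (F (e'.symm b).1 (e.symm a).1 * G (e'.symm b).2 (e.symm a).2) *
    (x (e.symm a).1 * y (e.symm a).2) =
    (∑ a, F (e'.symm b).1 a * x a) * ∑ a, G (e'.symm b).2 a * y a
  rw [← Equiv.sum_comp e, Fintype.sum_prod_type, Finset.sum_mul_sum]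
  apply Finset.sum_congr rfl
  intro a _
  apply Finset.sum_congr rfl
  intro c _
  rw [Equiv.symm_apply_apply]
  ring

theorem pull_mulVec (e : Fin m × Fin n ≃ Fin q) (u : Fin n → K) (x : Fin m → K) :
    (Matrix.of fun b a => (1 : Matrix (Fin m) (Fin m) K) (e.symm b).1 a * u (e.symm b).2) *ᵥ x =
      tens e x u := by
  funext b
  show ∑ a, ((1 : Matrix (Fin m) (Fin m) K) (e.symm b).1 a * u (e.symm b).2) * x a =
    x (e.symm b).1 * u (e.symm b).2
  rw [Finset.sum_eq_single (e.symm b).1]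
  · rw [Matrix.one_apply_eq]
    ring
  · intro a _ ha
    rw [Matrix.one_apply_ne (Ne.symm ha)]
    ring
  · intro h
    exact absurd (Finset.mem_univ _) h

theorem push_mulVec (e : Fin m × Fin n ≃ Fin q) (w : Fin n → K) (x : Fin m → K)
    (y : Fin n → K) :
    (Matrix.of fun b a => (1 : Matrix (Fin m) (Fin m) K) b (e.symm a).1 * w (e.symm a).2) *ᵥ
      tens e x y = (w ⬝ᵥ y) • x := by
  funext b
  show ∑ a, ((1 : Matrix (Fin m) (Fin m) K) b (e.symm a).1 * w (e.symm a).2) *
    (x (e.symm a).1 * y (e.symm a).2) = (∑ c, w c * y c) * x b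
  rw [← Equiv.sum_comp e, Fintype.sum_prod_type, Finset.sum_eq_single b]
  · rw [Finset.sum_mul]
    apply Finset.sum_congr rfl
    intro c _
    rw [Equiv.symm_apply_apply]
    show (1 : Matrix (Fin m) (Fin m) K) b b * w c * (x b * y c) = w c * y c * x b
    rw [Matrix.one_apply_eq]
    ring
  · intro a _ ha
    apply Finset.sum_eq_zero
    intro c _
    rw [Equiv.symm_apply_apply]
    show (1 : Matrix (Fin m) (Fin m) K) b a * w c * (x a * y c) = 0
    rw [Matrix.one_apply_ne (Ne.symm ha)]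
    ring
  · intro h
    exact absurd (Finset.mem_univ _) h

/-- an alternating sum telescopes -/
theorem tele {M : Type} [AddCommGroup M] [Module K M] (r : ℕ) (t : ℕ → M) :
    ∑ l ∈ Finset.range (r + 1), ((-1 : K) ^ (r - l)) • (t l + t (l + 1)) =
      ((-1 : K) ^ r) • t 0 + t (r + 1) := by
  induction r with
  | zero => simp
  | succ r ih =>
    rw [Finset.sum_range_succ]
    have h1 : ∑ l ∈ Finset.range (r + 1), ((-1 : K) ^ (r + 1 - l)) • (t l + t (l + 1)) =
        (-1 : K) • ∑ l ∈ Finset.range (r + 1), ((-1 : K) ^ (r - l)) • (t l + t (l + 1)) := by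
      rw [Finset.smul_sum]
      apply Finset.sum_congr rfl
      intro l hl
      have h2 : r + 1 - l = (r - l) + 1 := by
        have := Finset.mem_range.1 hl
        omega
      rw [h2, pow_succ, mul_comm, mul_smul]
    rw [h1, ih, Nat.sub_self, pow_zero, one_smul, pow_succ, smul_add, smul_smul]
    rw [mul_comm (-1 : K) ((-1 : K) ^ r), neg_one_smul]
    abel

end tensor

variable {K : Type} [Field K] [CharZero K] {W : Theory K}

theorem sgn_mem {n : ℕ} {X Y : W.Var n} {s : ℤ} {M : Matrix (Fin (W.rk Y)) (Fin (W.rk X)) K}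
    (h : M ∈ W.cyc X Y s) (r : ℕ) : ((-1 : K) ^ r) • M ∈ W.cyc X Y s := by
  rcases neg_one_pow_eq_or K r with e | e
  · rw [e, one_smul]
    exact h
  · rw [e, neg_one_smul]
    exact neg_mem h

theorem deg_pow {n : ℕ} {X : W.Var n} {L : Matrix (Fin (W.rk X)) (Fin (W.rk X)) K}
    (hL : L ∈ W.cyc X X 1) {i : ℤ} {x : Fin (W.rk X) → K}
    (hx : ∀ a, x a ≠ 0 → (W.deg X a : ℤ) = i) (k : ℕ) :
    ∀ a, (L ^ k *ᵥ x) a ≠ 0 → (W.deg X a : ℤ) = i + 2 * k := by
  induction k with
  | zero =>
    intro a ha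
    rw [pow_zero, Matrix.one_mulVec] at ha
    rw [hx a ha]
    push_cast
    ring
  | succ k ih =>
    intro a ha
    rw [pow_succ', ← Matrix.mulVec_mulVec] at ha
    have : ∃ b, L a b * (L ^ k *ᵥ x) b ≠ 0 := by
      by_contra hcon
      push Not at hcon
      exact ha (show ∑ b, L a b * (L ^ k *ᵥ x) b = 0 from Finset.sum_eq_zero fun b _ => hcon b)
    obtain ⟨b, hb⟩ := this
    rw [W.cyc_deg X X 1 L hL a b (left_ne_zero_of_mul hb), ih b (right_ne_zero_of_mul hb)]
    push_cast
    ring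

theorem pf_PRT : T_PRT := by
  intro K _ _ W hLI Z L hL i hi
  rcases Nat.eq_or_lt_of_le hi with hid | hid
  · refine ⟨1, ?_, ?_⟩
    · rw [hid, sub_self]
      exact W.one_mem Z
    · rw [hid, Nat.sub_self, pow_zero, one_mul, one_mul]
  · obtain ⟨r, hr⟩ : ∃ r, W.dim Z = i + r + 1 := ⟨W.dim Z - i - 1, by omega⟩
    set e := W.pr Z (W.P r) with he
    set L' := (Matrix.of fun b a =>
      L ((W.pr Z (W.P r)).symm b).1 ((W.pr Z (W.P r)).symm a).1 *
        (1 : Matrix (Fin (W.rk (W.P r))) (Fin (W.rk (W.P r))) K) ((W.pr Z (W.P r)).symm b).2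
          ((W.pr Z (W.P r)).symm a).2 +
      (1 : Matrix (Fin (W.rk Z)) (Fin (W.rk Z)) K) ((W.pr Z (W.P r)).symm b).1
        ((W.pr Z (W.P r)).symm a).1 *
        W.hyp r ((W.pr Z (W.P r)).symm b).2 ((W.pr Z (W.P r)).symm a).2) with hL'
    have hL'm : L' ∈ W.Lef (W.prod Z (W.P r)) := W.Lef_prod Z (W.P r) L hL _ (W.hyp_mem r)
    have hdim : W.dim (W.prod Z (W.P r)) = i + r + 1 + r := by
      rw [W.dim_prod, W.dim_P, hr]
    obtain ⟨α, hα, hαL⟩ := hLI (W.prod Z (W.P r)) L' hL'm (i + 2 * r) (by omega)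
    set pull := (Matrix.of fun b a =>
      (1 : Matrix (Fin (W.rk Z)) (Fin (W.rk Z)) K) ((W.pr Z (W.P r)).symm b).1 a *
        W.unit r ((W.pr Z (W.P r)).symm b).2) with hpull
    set push := (Matrix.of fun b a =>
      (1 : Matrix (Fin (W.rk Z)) (Fin (W.rk Z)) K) b ((W.pr Z (W.P r)).symm a).1 *
        W.degree r ((W.pr Z (W.P r)).symm a).2) with hpush
    have hpullm : pull ∈ W.cyc Z (W.prod Z (W.P r)) 0 := W.pull_mem Z r
    have hpushm : push ∈ W.cyc (W.prod Z (W.P r)) Z (-(r : ℤ)) := W.push_mem Z r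
    have hunit : ∀ (a : Fin (W.rk Z)) (c : Fin (W.rk (W.P r))), W.unit r c ≠ 0 →
        (W.deg (W.P r) c : ℤ) = 0 := by
      intro a c hc
      have h1 : pull (e (a, c)) a ≠ 0 := by
        rw [hpull]
        show (1 : Matrix (Fin (W.rk Z)) (Fin (W.rk Z)) K) (e.symm (e (a, c))).1 a *
          W.unit r (e.symm (e (a, c))).2 ≠ 0
        rw [Equiv.symm_apply_apply]
        show (1 : Matrix (Fin (W.rk Z)) (Fin (W.rk Z)) K) a a * W.unit r c ≠ 0
        rw [Matrix.one_apply_eq, one_mul]
        exact hc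
      have h2 := W.cyc_deg _ _ _ _ hpullm _ _ h1
      rw [he, W.deg_prod] at h2
      push_cast at h2
      linarith
    have hL'v : ∀ (x : Fin (W.rk Z) → K) (y : Fin (W.rk (W.P r)) → K),
        L' *ᵥ tens e x y = tens e (L *ᵥ x) y + tens e x (W.hyp r *ᵥ y) := by
      intro x y
      have e1 : L' = (Matrix.of fun b a => L (e.symm b).1 (e.symm a).1 *
          (1 : Matrix (Fin (W.rk (W.P r))) (Fin (W.rk (W.P r))) K) (e.symm b).2 (e.symm a).2) +
          (Matrix.of fun b a => (1 : Matrix (Fin (W.rk Z)) (Fin (W.rk Z)) K) (e.symm b).1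
            (e.symm a).1 * W.hyp r (e.symm b).2 (e.symm a).2) := rfl
      rw [e1, Matrix.add_mulVec, kron_mulVec, kron_mulVec, Matrix.one_mulVec, Matrix.one_mulVec]
    have key : ∀ x : Fin (W.rk Z) → K, (∀ a, x a ≠ 0 → (W.deg Z a : ℤ) = i) →
        push *ᵥ (α *ᵥ (((-1 : K) ^ r) • (pull *ᵥ (L ^ (r + 1) *ᵥ x)))) = x := by
      intro x hx
      set y : Fin (W.rk (W.prod Z (W.P r))) → K := ∑ l ∈ Finset.range (r + 1),
        ((-1 : K) ^ (r - l)) • tens e (L ^ (r - l) *ᵥ x) (W.hyp r ^ l *ᵥ W.unit r) with hy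
      have hLy : L' *ᵥ y = ((-1 : K) ^ r) • tens e (L ^ (r + 1) *ᵥ x) (W.unit r) := by
        rw [hy, Matrix.mulVec_sum]
        have h1 := tele (K := K) r (fun l => tens e (L ^ (r + 1 - l) *ᵥ x)
          (W.hyp r ^ l *ᵥ W.unit r))
        have h2 : ∑ l ∈ Finset.range (r + 1), L' *ᵥ (((-1 : K) ^ (r - l)) •
            tens e (L ^ (r - l) *ᵥ x) (W.hyp r ^ l *ᵥ W.unit r)) =
            ∑ l ∈ Finset.range (r + 1), ((-1 : K) ^ (r - l)) •
              (tens e (L ^ (r + 1 - l) *ᵥ x) (W.hyp r ^ l *ᵥ W.unit r) +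
                tens e (L ^ (r + 1 - (l + 1)) *ᵥ x) (W.hyp r ^ (l + 1) *ᵥ W.unit r)) := by
          apply Finset.sum_congr rfl
          intro l hl
          have h3 : r + 1 - l = (r - l) + 1 := by
            have := Finset.mem_range.1 hl
            omega
          have h4 : r + 1 - (l + 1) = r - l := by omega
          rw [Matrix.mulVec_smul, hL'v, h3, h4, pow_succ', ← Matrix.mulVec_mulVec,
            pow_succ' (W.hyp r) l, ← Matrix.mulVec_mulVec]
        rw [h2, h1, W.hyp_pow, Matrix.zero_mulVec, pow_zero, Matrix.one_mulVec, Nat.sub_zero]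
        have h5 : tens e (L ^ (r + 1 - (r + 1)) *ᵥ x) (0 : Fin (W.rk (W.P r)) → K) = 0 := by
          funext b
          show _ * (0 : K) = 0
          rw [mul_zero]
        rw [h5, add_zero]
      have hpy : push *ᵥ y = x := by
        rw [hy, Matrix.mulVec_sum, Finset.sum_eq_single r]
        · rw [Matrix.mulVec_smul, push_mulVec, W.degree_pow r r (le_refl r), if_pos rfl,
            Nat.sub_self, pow_zero, pow_zero, Matrix.one_mulVec, one_smul, one_smul]
        · intro l hl hlr
          have hlt := Finset.mem_range.1 hl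
          rw [Matrix.mulVec_smul, push_mulVec, W.degree_pow r l (by omega), if_neg hlr,
            zero_smul, smul_zero]
        · intro h
          exact absurd (Finset.mem_range.2 (Nat.lt_succ_self r)) h
      have hyH : ∀ b, y b ≠ 0 → W.deg (W.prod Z (W.P r)) b = i + 2 * r := by
        intro b hb
        rw [hy, Finset.sum_apply] at hb
        obtain ⟨l, hl, hlb⟩ := Finset.exists_ne_zero_of_sum_ne_zero hb
        have hlt := Finset.mem_range.1 hl
        have h1 : (L ^ (r - l) *ᵥ x) (e.symm b).1 * (W.hyp r ^ l *ᵥ W.unit r) (e.symm b).2 ≠ 0 :=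
          right_ne_zero_of_mul hlb
        have h2 := deg_pow (W.Lef_mem Z L hL) hx (r - l) _ (left_ne_zero_of_mul h1)
        have h3 := deg_pow (W.Lef_mem _ _ (W.hyp_mem r)) (hunit (e.symm b).1) l _
          (right_ne_zero_of_mul h1)
        have h4 := W.deg_prod Z (W.P r) (e.symm b).1 (e.symm b).2
        have h5 : W.pr Z (W.P r) ((e.symm b).1, (e.symm b).2) = b := by
          rw [Prod.mk.eta, he, Equiv.apply_symm_apply]
        rw [h5] at h4
        omega
      have hpj : W.pj (W.prod Z (W.P r)) (i + 2 * r) *ᵥ y = y := by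
        funext b
        unfold Theory.pj
        rw [Matrix.mulVec_diagonal]
        by_cases h0 : y b = 0
        · rw [h0, mul_zero]
        · rw [if_pos (hyH b h0), one_mul]
      have hαy : α *ᵥ (L' *ᵥ y) = y := by
        have h1 : (α * L' * W.pj (W.prod Z (W.P r)) (i + 2 * r)) *ᵥ y =
            W.pj (W.prod Z (W.P r)) (i + 2 * r) *ᵥ y := by rw [hαL]
        rw [← Matrix.mulVec_mulVec, hpj, ← Matrix.mulVec_mulVec] at h1
        exact h1
      rw [hpull, pull_mulVec, ← hLy, hαy, hpy]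
    refine ⟨((-1 : K) ^ r) • (push * (α * pull)), ?_, ?_⟩
    · apply sgn_mem
      have h1 := W.mul_mem _ _ _ _ _ _ (W.mul_mem _ _ _ _ _ _ hpullm α hα) push hpushm
      have h2 : (0 + -1 + -(r : ℤ)) = (i : ℤ) - W.dim Z := by
        rw [hr]
        push_cast
        ring
      rw [h2] at h1
      exact h1
    · have h1 : W.dim Z - i = r + 1 := by omega
      rw [h1]
      apply Matrix.toLin'.injective
      apply LinearMap.ext
      intro v
      rw [Matrix.toLin'_apply, Matrix.toLin'_apply, ← Matrix.mulVec_mulVec,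
        ← Matrix.mulVec_mulVec, Matrix.smul_mulVec, ← Matrix.mulVec_mulVec,
        ← Matrix.mulVec_mulVec]
      have h2 := key (W.pj Z i *ᵥ v) (by
        intro a ha
        unfold Theory.pj at ha
        rw [Matrix.mulVec_diagonal] at ha
        by_cases h0 : W.deg Z a = i
        · exact_mod_cast h0
        · rw [if_neg h0, zero_mul] at ha
          exact absurd rfl ha)
      rw [Matrix.mulVec_smul, Matrix.mulVec_smul] at h2
      exact h2

end Pool.Agent.H37.CB
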